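import Pool.Agent.Helper119.HurC

set_option autoImplicit false

/-!
The optimally scaled gap-potential bound for the Hurewicz homomorphism on loops (`m = 1`).

The definitions `closedForms`, `exactForms`, `H1dR`, `Hom1`, `loopIntegral`, `IsHurewicz`,
`scaledGap`, `GapBound` are in `Pool.Agent.Helper119.HurDefs`.

The theorem: let `N` be a compact Riemannian manifold (Mathlib's classes; boundary and corners are
allowed). There is a map `Hur` from continuous circle maps to linear functionals on the first de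
Rham cohomology of `N` which is homotopy invariant and is given by integration of closed one-forms
on maps of class `C^1`, and for every seminorm `ν` (in particular every norm) on these functionals
there are `C > 0` and `ε₀ > 0` such that `ν (Hur f) ≤ C * E_ε(f)` for all `ε` in `(0, ε₀)` and all
continuous circle maps `f`.
-/

open Set Topology Real Bundle
open scoped ContDiff Manifold ENNReal Bundle
open Pool.Agent.H259R3.GP Pool.Agent.Helper119.Hur

namespace Pool.Agent.Results.MP_346ebc_an.HurewiczGap

theorem gap_le {N : Type*} [PseudoEMetricSpace N] (ε : ℝ) (f : C(Circle, N)) :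
    gapEnergy ε f ≤ scaledGap ε f := by
  unfold gapEnergy scaledGap
  refine MeasureTheory.lintegral_mono fun θ => MeasureTheory.lintegral_mono fun φ => ?_
  simp only
  split_ifs with h1 h2
  · exact le_rfl
  · exact absurd h1.le h2
  · exact zero_le
  · exact le_rfl

theorem result {E : Type*} [NormedAddCommGroup E] [NormedSpace ℝ E]
    {H : Type*} [TopologicalSpace H] (𝓜 : ModelWithCorners ℝ E H)
    (N : Type*) [EMetricSpace N] [ChartedSpace H N] [IsManifold 𝓜 ∞ N]
    [Bundle.RiemannianBundle (fun x : N => TangentSpace 𝓜 x)]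
    [IsContMDiffRiemannianBundle 𝓜 ∞ E (fun x : N => TangentSpace 𝓜 x)]
    [IsRiemannianManifold 𝓜 N] [CompactSpace N] :
    ∃ Hur : C(Circle, N) → Hom1 𝓜 N, IsHurewicz 𝓜 Hur ∧
      ∀ ν : Seminorm ℝ (Hom1 𝓜 N), GapBound Hur ν := by
  have hinv : ∀ f g : C(Circle, N), f.Homotopic g → hur (𝓜 := 𝓜) f = hur g := by
    intro f g h
    refine hom_ext fun η => ?_
    rw [hur_mk, hur_mk, per_homotopic h]
  refine ⟨hur, ⟨hinv, ?_⟩, ?_⟩
  · intro f hf η
    rw [hur_mk, per_eq_loopIntegral η f hf]
  · intro ν
    obtain ⟨r1, r2, ρ, hρ, hr2, hL⟩ := lsc_of_local (local_of_manifold 𝓜 (N := N))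
    obtain ⟨ε₀, hε₀, C, hC, m, a, S, hS, hmain⟩ := main_PC hρ hr2 hL
    have hMi : ∀ i, ∃ M : ℝ, 0 ≤ M ∧ ∀ ρ : Path (a i) (a i), LG.mk ρ ∈ S i →
        ν (hur (𝓜 := 𝓜) (lc ρ)) ≤ M := by
      intro i
      choose rep hrep using fun s : LG (a i) => LG.mk_surj s
      obtain ⟨M, hM⟩ := ((hS i).image (fun s => ν (hur (𝓜 := 𝓜) (lc (rep s))))).bddAbove
      refine ⟨max M 0, le_max_right _ _, fun ρ hρ => ?_⟩
      have h1 : hur (𝓜 := 𝓜) (lc ρ) = hur (lc (rep (LG.mk ρ))) :=
        hinv _ _ (lc_homotopic (LG.mk_eq.mp (hrep _).symm))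
      rw [h1]
      exact (hM (mem_image_of_mem _ hρ)).trans (le_max_left _ _)
    choose M hM0 hM using hMi
    have hMs : ∀ i, M i ≤ ∑ j, M j := fun i =>
      Finset.single_le_sum (fun j _ => hM0 j) (Finset.mem_univ i)
    set B := ∑ j, M j with hB
    have hB0 : 0 ≤ B := Finset.sum_nonneg fun j _ => hM0 j
    have htrans : ∀ (p : N) (δ δ' : Path p p),
        hur (𝓜 := 𝓜) (lc (δ.trans δ')) = hur (lc δ) + hur (lc δ') := by
      intro p δ δ'
      refine hom_ext fun η => ?_
      rw [pairing_add, hur_mk, hur_mk, hur_mk, per_trans]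
    refine ⟨C * (B + 1), by positivity, ε₀, hε₀, fun ε hε hε0 f => ?_⟩
    by_cases htop : scaledGap ε f = ⊤
    · rw [htop, ENNReal.mul_top]
      · exact le_top
      · rw [ne_eq, ENNReal.ofReal_eq_zero, not_le]
        positivity
    · set e := (scaledGap ε f).toReal with he
      have he0 : 0 ≤ e := ENNReal.toReal_nonneg
      have hee : scaledGap ε f = ENNReal.ofReal e := (ENNReal.ofReal_toReal htop).symm
      have key : ∀ l > e, ν (hur (𝓜 := 𝓜) f) ≤ C * (B + 1) * l := by
        intro l hl
        have hl0 : 0 < l := lt_of_le_of_lt he0 hl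
        have hg : gapEnergy ε f ≤ ENNReal.ofReal l := by
          refine (gap_le ε f).trans ?_
          rw [hee]
          exact ENNReal.ofReal_le_ofReal hl.le
        obtain ⟨i, δ, k, hk, hfδ, hPC⟩ := hmain l hl0 ε hε hε0 f hg
        have h1 := PC_bound (φ := hur (𝓜 := 𝓜)) hinv (htrans (a i)) ν (hM i) hPC δ rfl
        rw [hinv f _ hfδ]
        refine h1.trans ?_
        have hMB : M i ≤ B + 1 := (hMs i).trans (by linarith)
        calc (k : ℝ) * M i ≤ (C * l) * (B + 1) :=
              mul_le_mul hk hMB (hM0 i) (by positivity)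
          _ = C * (B + 1) * l := by ring
      have h2 : ν (hur (𝓜 := 𝓜) f) ≤ C * (B + 1) * e := by
        have hpos : 0 < C * (B + 1) := by positivity
        rw [← div_le_iff₀' hpos]
        refine le_of_forall_gt_imp_ge_of_dense fun l hl => ?_
        rw [div_le_iff₀' hpos]
        exact key l hl
      rw [hee, ← ENNReal.ofReal_mul (by positivity)]
      exact ENNReal.ofReal_le_ofReal h2

end Pool.Agent.Results.MP_346ebc_an.HurewiczGap
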